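import Pool.Agent.H6.FB.Stmts

/-!
# Project FB, module GMB: the size of the first coordinate
-/

set_option autoImplicit false

open Metric Set Filter Topology

namespace Pool.Agent.H6.FB

theorem gmb_bessel {E : Type} [NormedAddCommGroup E] [InnerProductSpace ℂ E] {e e' : E}
    (he : ‖e‖ = 1) (he' : ‖e'‖ = 1) (hee : inner ℂ e e' = 0) (z : E) :
    ‖(inner ℂ e z : ℂ)‖ ^ 2 + ‖(inner ℂ e' z : ℂ)‖ ^ 2 ≤ ‖z‖ ^ 2 := by
  have hee2 : inner ℂ e' e = 0 := by
    rw [← inner_conj_symm, hee, map_zero]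
  have ho : Orthonormal ℂ ![e, e'] := by
    constructor
    · intro i
      fin_cases i
      · exact he
      · exact he'
    · intro i j hij
      fin_cases i <;> fin_cases j
      · exact absurd rfl hij
      · exact hee
      · exact hee2
      · exact absurd rfl hij
  have h := ho.sum_inner_products_le z (s := Finset.univ)
  rw [Fin.sum_univ_two] at h
  exact h

theorem gmb_inner {E : Type} [NormedAddCommGroup E] [InnerProductSpace ℂ E] {e e' : E}
    (he : ‖e‖ = 1) (hee : inner ℂ e e' = 0) (a b : ℂ → ℂ) (z : E) :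
    inner ℂ e (Gm a b e e' z) = inner ℂ e z * a (inner ℂ e z * inner ℂ e' z) := by
  have h1 : inner ℂ e e = (1 : ℂ) := by
    rw [inner_self_eq_norm_sq_to_K, he]
    simp
  unfold Gm
  rw [inner_add_right, inner_add_right, inner_smul_right, inner_smul_right, h1, hee]
  ring

theorem gmb_thm : GMBStmt := by
  intro a b R C s₀ hL E _ _ e e' he he' hee z hz
  rw [gmb_inner he hee]
  set X : ℂ := inner ℂ e z with hX
  set Y : ℂ := inner ℂ e' z with hY
  have hB : ‖X‖ ^ 2 + ‖Y‖ ^ 2 ≤ 1 := by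
    refine (gmb_bessel he he' hee z).trans ?_
    nlinarith [norm_nonneg z]
  have h0 : ‖X * Y‖ ≤ 1 / 2 := by
    rw [norm_mul]
    nlinarith [sq_nonneg (‖X‖ - ‖Y‖)]
  have h1 := hL.sqa (X * Y) h0
  rw [norm_mul] at h1
  rw [norm_mul, mul_pow]
  set x : ℝ := ‖X‖ ^ 2 with hx
  set y : ℝ := ‖Y‖ ^ 2 with hy
  have hx0 : 0 ≤ x := by positivity
  have hy0 : 0 ≤ y := by positivity
  have hxy : (‖X‖ * ‖Y‖) ^ 2 = x * y := by rw [mul_pow]
  rw [hxy] at h1
  calc x * ‖a (X * Y)‖ ^ 2 ≤ x * (1 + x * y / 2) := mul_le_mul_of_nonneg_left h1 hx0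
    _ ≤ (1 - y) * (1 + (1 - y) * y / 2) := by
        have hx1 : x ≤ 1 - y := by linarith
        have h2 : 1 + x * y / 2 ≤ 1 + (1 - y) * y / 2 := by nlinarith
        exact mul_le_mul hx1 h2 (by positivity) (by linarith)
    _ ≤ 1 - y / 2 := by
        have hy1 : 0 ≤ 1 - y := by linarith
        nlinarith [mul_nonneg (mul_nonneg hy0 hy0) hy1, mul_nonneg hy0 hy0]

end Pool.Agent.H6.FB
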