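import Pool.Agent.H6.FB.Stmts

/-!
# Project FB, module NRM: normalisation and dilation
-/

set_option autoImplicit false

open Metric Set Filter Topology

namespace Pool.Agent.H6.FB

section

variable {E : Type} [NormedAddCommGroup E] [InnerProductSpace ℂ E] [FiniteDimensional ℂ E]

/-- the dilated maps are close to the map -/
theorem nrm_dil {F : E → E} (hF : DifferentiableOn ℂ F (ball 0 1)) {r ε : ℝ} (hr : r < 1)
    (hε : 0 < ε) : ∃ ρ : ℝ, 0 < ρ ∧ ρ < 1 ∧ ∀ z ∈ closedBall (0 : E) r,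
      ‖((ρ⁻¹ : ℝ) : ℂ) • F ((ρ : ℂ) • z) - F z‖ < ε := by
  have : ProperSpace E := FiniteDimensional.proper ℂ E
  set K : Set (ℝ × E) := Icc (1 / 2 : ℝ) 1 ×ˢ closedBall (0 : E) r with hK
  have hKc : IsCompact K := isCompact_Icc.prod (isCompact_closedBall 0 r)
  have hcont : ContinuousOn (fun p : ℝ × E => ((p.1⁻¹ : ℝ) : ℂ) • F ((p.1 : ℂ) • p.2)) K := by
    have h1 : ContinuousOn (fun p : ℝ × E => ((p.1⁻¹ : ℝ) : ℂ)) K := by
      refine Complex.continuous_ofReal.comp_continuousOn ?_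
      refine ContinuousOn.inv₀ continuousOn_fst fun p hp => ?_
      have := hp.1.1
      intro h0
      rw [h0] at this
      norm_num at this
    have h2 : ContinuousOn (fun p : ℝ × E => F ((p.1 : ℂ) • p.2)) K := by
      refine hF.continuousOn.comp (f := fun p : ℝ × E => (p.1 : ℂ) • p.2) ?_ ?_
      · exact ((Complex.continuous_ofReal.comp continuous_fst).smul continuous_snd).continuousOn
      · intro p hp
        have h3 := hp.2
        rw [mem_closedBall_zero_iff] at h3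
        rw [mem_ball_zero_iff, norm_smul, Complex.norm_real, Real.norm_eq_abs,
          abs_of_nonneg (by linarith [hp.1.1])]
        calc p.1 * ‖p.2‖ ≤ 1 * ‖p.2‖ := mul_le_mul_of_nonneg_right hp.1.2 (norm_nonneg _)
          _ < 1 := by linarith
    exact h1.smul h2
  obtain ⟨δ, hδ, h⟩ := Metric.uniformContinuousOn_iff.1
    (hKc.uniformContinuousOn_of_continuous hcont) ε hε
  set ρ : ℝ := max (1 - δ / 2) (1 / 2) with hρ
  have h1 : 1 / 2 ≤ ρ := le_max_right _ _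
  have h2 : ρ < 1 := max_lt (by linarith) (by norm_num)
  have h3 : 1 - δ / 2 ≤ ρ := le_max_left _ _
  refine ⟨ρ, by linarith, h2, fun z hz => ?_⟩
  have h4 := h (ρ, z) ⟨⟨h1, h2.le⟩, hz⟩ (1, z) ⟨⟨by norm_num, le_rfl⟩, hz⟩ (by
    rw [Prod.dist_eq, dist_self, max_eq_left dist_nonneg, Real.dist_eq]
    rw [abs_of_nonpos (by linarith)]
    linarith)
  rw [dist_eq_norm] at h4
  simpa using h4

omit [FiniteDimensional ℂ E] in
/-- the dilated maps -/
theorem nrm_good {F : E → E} (hF : DifferentiableOn ℂ F (ball 0 1)) (hi : InjOn F (ball 0 1))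
    {ρ : ℝ} (h0 : 0 < ρ) (h1 : ρ < 1) : Good fun z : E => ((ρ⁻¹ : ℝ) : ℂ) • F ((ρ : ℂ) • z) := by
  have hmem : ∀ z ∈ ball (0 : E) ρ⁻¹, (ρ : ℂ) • z ∈ ball (0 : E) 1 := by
    intro z hz
    rw [mem_ball_zero_iff] at hz ⊢
    rw [norm_smul, Complex.norm_real, Real.norm_eq_abs, abs_of_pos h0]
    calc ρ * ‖z‖ < ρ * ρ⁻¹ := mul_lt_mul_of_pos_left hz h0
      _ = 1 := mul_inv_cancel₀ h0.ne'
  have hρc : (ρ : ℂ) ≠ 0 := by exact_mod_cast h0.ne'
  have hρc' : ((ρ⁻¹ : ℝ) : ℂ) ≠ 0 := by exact_mod_cast (inv_pos.2 h0).ne'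
  refine ⟨ball 0 ρ⁻¹, isOpen_ball, ?_, ?_, ?_⟩
  · intro z hz
    rw [mem_closedBall_zero_iff] at hz
    rw [mem_ball_zero_iff]
    have : 1 < ρ⁻¹ := (one_lt_inv₀ h0).2 h1
    linarith
  · have h2 : DifferentiableOn ℂ (fun z : E => (ρ : ℂ) • z) (ball 0 ρ⁻¹) :=
      (differentiable_id.const_smul (ρ : ℂ)).differentiableOn
    exact (hF.comp h2 hmem).const_smul _
  · intro z hz w hw hzw
    have h2 : F ((ρ : ℂ) • z) = F ((ρ : ℂ) • w) := smul_right_injective E hρc' hzw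
    exact smul_right_injective E hρc (hi (hmem z hz) (hmem w hw) h2)

end

theorem nrm_thm (hE : EXIStmt) : NRMStmt := by
  intro E _ _ _ hn F hF hi hF0 hF1 r ε hr hε
  have : ProperSpace E := FiniteDimensional.proper ℂ E
  obtain ⟨ρ, hρ0, hρ1, hclose⟩ := nrm_dil hF hr (half_pos hε)
  set G : E → E := fun z : E => ((ρ⁻¹ : ℝ) : ℂ) • F ((ρ : ℂ) • z) with hG
  have hGood : Good G := nrm_good hF hi hρ0 hρ1
  have hρc : (ρ : ℂ) ≠ 0 := by exact_mod_cast hρ0.ne'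
  obtain ⟨U, hUo, hUs, hUd, -⟩ := id hGood
  have hGc : ContinuousOn G (closedBall 0 1) := hUd.continuousOn.mono hUs
  have hG0 : G 0 = 0 := by simp [hG, hF0]
  have hGd : HasFDerivAt G (ContinuousLinearMap.id ℂ E) 0 := by
    have h1 : HasFDerivAt F (ContinuousLinearMap.id ℂ E) ((ρ : ℂ) • (0 : E)) := by
      rw [smul_zero, ← hF1]
      exact (hF.differentiableAt (ball_mem_nhds 0 one_pos)).hasFDerivAt
    have h2 : HasFDerivAt (fun z : E => (ρ : ℂ) • z) ((ρ : ℂ) • ContinuousLinearMap.id ℂ E) 0 :=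
      (hasFDerivAt_id (0 : E)).const_smul (ρ : ℂ)
    have h3 := (h1.comp (0 : E) h2).const_smul ((ρ⁻¹ : ℝ) : ℂ)
    refine h3.congr_fderiv (ContinuousLinearMap.ext fun v => ?_)
    simp only [smul_apply, ContinuousLinearMap.comp_apply, ContinuousLinearMap.id_apply]
    rw [smul_smul]
    have : ((ρ⁻¹ : ℝ) : ℂ) * (ρ : ℂ) = 1 := by
      push_cast
      exact inv_mul_cancel₀ hρc
    rw [this, one_smul]
  obtain ⟨M, hM⟩ := (isCompact_closedBall (0 : E) 1).exists_bound_of_continuousOn hGc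
  have hM0 : 0 ≤ M := (norm_nonneg _).trans (hM 0 (mem_closedBall_self zero_le_one))
  set ε₁ : ℝ := min (1 / 8) (ε / (8 * M + 16)) with hε₁
  have hε₁0 : 0 < ε₁ := lt_min (by norm_num) (by positivity)
  have hε₁1 : ε₁ ≤ 1 / 8 := min_le_left _ _
  have hε₁2 : ε₁ * (8 * M + 16) ≤ ε := by
    have h1 : ε₁ ≤ ε / (8 * M + 16) := min_le_right _ _
    rwa [le_div_iff₀ (by positivity)] at h1
  obtain ⟨f₀, hN, hinj, hBD, hf₀⟩ := hE E hn G hGood ε₁ hε₁0
  have hd₀ : DifferentiableAt ℂ f₀ 0 := hN.2.differentiableAt (ball_mem_nhds 0 one_pos)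
  set D : E →L[ℂ] E := fderiv ℂ f₀ 0 with hD
  have hDn : ‖D - ContinuousLinearMap.id ℂ E‖ ≤ 2 * ε₁ := by
    have h1 : D - ContinuousLinearMap.id ℂ E = fderiv ℂ (fun z => f₀ z - G z) 0 :=
      (hd₀.hasFDerivAt.sub hGd).fderiv.symm
    rw [h1]
    have h2 : DifferentiableOn ℂ (fun z => f₀ z - G z) (ball 0 1) :=
      hN.2.sub (hUd.mono (ball_subset_closedBall.trans hUs))
    have h3 : MapsTo (fun z => f₀ z - G z) (ball 0 1)
        (closedBall ((fun z => f₀ z - G z) 0) (2 * ε₁)) := by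
      intro z hz
      rw [mem_closedBall, dist_eq_norm]
      have h4 := hf₀ z (ball_subset_closedBall hz)
      have h5 := hf₀ 0 (mem_closedBall_self zero_le_one)
      calc ‖(f₀ z - G z) - (f₀ 0 - G 0)‖ ≤ ‖f₀ z - G z‖ + ‖f₀ 0 - G 0‖ := norm_sub_le _ _
        _ ≤ 2 * ε₁ := by linarith
    have h4 := Complex.norm_fderiv_le_div_of_mapsTo_ball h2 h3 one_pos
    rwa [div_one] at h4
  have hDb : ∀ v : E, ‖v‖ ≤ 2 * ‖D v‖ := by
    intro v
    have h1 : ‖(D - ContinuousLinearMap.id ℂ E) v‖ ≤ 2 * ε₁ * ‖v‖ :=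
      (D - ContinuousLinearMap.id ℂ E).le_of_opNorm_le hDn v
    have h2 : v = D v - (D - ContinuousLinearMap.id ℂ E) v := by
      simp [sub_apply]
    have h3 : ‖v‖ ≤ ‖D v‖ + ‖(D - ContinuousLinearMap.id ℂ E) v‖ := by
      conv_lhs => rw [h2]
      exact norm_sub_le _ _
    nlinarith [norm_nonneg v]
  have hDi : Function.Injective (D : E →ₗ[ℂ] E) := by
    intro v w hvw
    have h1 : D (v - w) = 0 := by
      rw [map_sub]
      exact sub_eq_zero.2 hvw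
    have h2 := hDb (v - w)
    rw [h1, norm_zero, mul_zero] at h2
    exact sub_eq_zero.1 (norm_eq_zero.1 (le_antisymm h2 (norm_nonneg _)))
  set L : E ≃L[ℂ] E := (LinearEquiv.ofInjectiveEndo (D : E →ₗ[ℂ] E) hDi).toContinuousLinearEquiv
    with hL
  have hLD : ∀ v, L v = D v := fun v => rfl
  set A : E →L[ℂ] E := (L.symm : E →L[ℂ] E) with hA
  have hDA : ∀ v, D (A v) = v := fun v => by
    rw [← hLD]
    exact L.apply_symm_apply v
  have hAD : ∀ v, A (D v) = v := fun v => by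
    rw [← hLD]
    exact L.symm_apply_apply v
  have hAn : ∀ v, ‖A v‖ ≤ 2 * ‖v‖ := fun v => by
    have := hDb (A v)
    rwa [hDA] at this
  have hAi : Function.Injective A := L.symm.injective
  have hA1 : ∀ v, ‖A v - v‖ ≤ 4 * ε₁ * ‖v‖ := by
    intro v
    have h1 : A v - v = -(A ((D - ContinuousLinearMap.id ℂ E) v)) := by
      rw [sub_apply, ContinuousLinearMap.id_apply, map_sub, hAD]
      abel
    rw [h1, norm_neg]
    have h2 : ‖(D - ContinuousLinearMap.id ℂ E) v‖ ≤ 2 * ε₁ * ‖v‖ :=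
      (D - ContinuousLinearMap.id ℂ E).le_of_opNorm_le hDn v
    calc ‖A ((D - ContinuousLinearMap.id ℂ E) v)‖ ≤ 2 * ‖(D - ContinuousLinearMap.id ℂ E) v‖ :=
          hAn _
      _ ≤ 4 * ε₁ * ‖v‖ := by linarith
  have hd : HasFDerivAt (fun z => A (f₀ z - f₀ 0)) (A.comp D) 0 :=
    A.hasFDerivAt.comp (0 : E) (hd₀.hasFDerivAt.sub_const (f₀ 0))
  refine ⟨fun z => A (f₀ z - f₀ 0), ⟨?_, ?_⟩, ?_, ?_, ?_, ?_, ?_⟩
  · exact A.continuous.comp_continuousOn (hN.1.sub continuousOn_const)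
  · exact A.differentiable.comp_differentiableOn (hN.2.sub (differentiableOn_const _))
  · intro z hz w hw hzw
    exact hinj hz hw (sub_left_injective (hAi hzw))
  · intro v hv δ hδ
    obtain ⟨d, ⟨hd1, hd2, hd3, ζ₀, hζ₀, hd4⟩, hd5⟩ := hBD v hv (δ / 2) (half_pos hδ)
    refine ⟨fun ζ => A (d ζ - f₀ 0), ⟨?_, ?_, ?_, ζ₀, hζ₀, ?_⟩, ?_⟩
    · exact A.continuous.comp_continuousOn (hd1.sub continuousOn_const)
    · exact A.differentiable.comp_differentiableOn (hd2.sub (differentiableOn_const _))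
    · intro ζ hζ
      obtain ⟨z, hz, hzd⟩ := hd3 ζ hζ
      exact ⟨z, hz, by simp only [hzd]⟩
    · rintro ⟨z, hz, hzd⟩
      exact hd4 ⟨z, hz, sub_left_injective (hAi hzd)⟩
    · intro ζ hζ
      have h1 := hd5 ζ hζ
      have h2 : A (d ζ - f₀ 0) - A (f₀ v - f₀ 0) = A (d ζ - f₀ v) := by
        rw [← map_sub]
        congr 1
        abel
      rw [h2]
      have h3 := hAn (d ζ - f₀ v)
      linarith
  · simp
  · rw [hd.fderiv]
    exact ContinuousLinearMap.ext fun v => hAD v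
  · intro z hz
    have hz1 : z ∈ closedBall (0 : E) 1 := by
      rw [mem_closedBall_zero_iff] at hz ⊢
      linarith
    have h1 := hclose z hz
    have h2 := hf₀ z hz1
    have h3 := hf₀ 0 (mem_closedBall_self zero_le_one)
    rw [hG0, sub_zero] at h3
    have h4 := hM z hz1
    have h5 : ‖f₀ z - f₀ 0‖ ≤ M + 1 := by
      have e : f₀ z - f₀ 0 = (f₀ z - G z) + G z - f₀ 0 := by abel
      rw [e]
      calc ‖(f₀ z - G z) + G z - f₀ 0‖ ≤ ‖(f₀ z - G z) + G z‖ + ‖f₀ 0‖ := norm_sub_le _ _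
        _ ≤ ‖f₀ z - G z‖ + ‖G z‖ + ‖f₀ 0‖ := by gcongr; exact norm_add_le _ _
        _ ≤ M + 1 := by linarith
    have h6 := hA1 (f₀ z - f₀ 0)
    have h7 : ‖A (f₀ z - f₀ 0) - (f₀ z - f₀ 0)‖ ≤ 4 * ε₁ * (M + 1) :=
      h6.trans (mul_le_mul_of_nonneg_left h5 (by positivity))
    have e : A (f₀ z - f₀ 0) - F z = (A (f₀ z - f₀ 0) - (f₀ z - f₀ 0)) - f₀ 0 + (f₀ z - G z) +
        (G z - F z) := by abel
    rw [e]
    calc ‖(A (f₀ z - f₀ 0) - (f₀ z - f₀ 0)) - f₀ 0 + (f₀ z - G z) + (G z - F z)‖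
        ≤ ‖(A (f₀ z - f₀ 0) - (f₀ z - f₀ 0)) - f₀ 0 + (f₀ z - G z)‖ + ‖G z - F z‖ :=
          norm_add_le _ _
      _ ≤ ‖(A (f₀ z - f₀ 0) - (f₀ z - f₀ 0)) - f₀ 0‖ + ‖f₀ z - G z‖ + ‖G z - F z‖ := by
          gcongr; exact norm_add_le _ _
      _ ≤ ‖A (f₀ z - f₀ 0) - (f₀ z - f₀ 0)‖ + ‖f₀ 0‖ + ‖f₀ z - G z‖ + ‖G z - F z‖ := by
          gcongr; exact norm_sub_le _ _
      _ < 4 * ε₁ * (M + 1) + ε₁ + ε₁ + ε / 2 := by
          have h8 : ‖G z - F z‖ < ε / 2 := h1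
          linarith
      _ ≤ ε := by nlinarith

end Pool.Agent.H6.FB
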